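import Pool.Agent.H.MP_188e7a.C

set_option autoImplicit false
open Set Function Topology

namespace Pool.Agent.Results.MP_188e7a_gt.NotSigma

/-- the topology of pointwise convergence on the continuous real functions -/
abbrev ptop (X : Type) [TopologicalSpace X] : TopologicalSpace C(X, ℝ) :=
  TopologicalSpace.induced (fun f : C(X, ℝ) => (f : X → ℝ)) Pi.topologicalSpace

theorem result : ∃ (X Y : Type) (_ : TopologicalSpace X) (_ : TopologicalSpace Y),
    T35Space X ∧ T35Space Y ∧ SigmaCompactSpace X ∧ ¬ SigmaCompactSpace Y ∧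
    (∃ T : C(X, ℝ) →ₗ[ℝ] C(Y, ℝ), @Continuous _ _ (ptop X) (ptop Y) T ∧ Bijective T) ∧
    (∃ S : C(Y, ℝ) →ₗ[ℝ] C(X, ℝ), @Continuous _ _ (ptop Y) (ptop X) S ∧ Bijective S) := by
  obtain ⟨X, Y, h1, h2, h3, h4, ⟨T, t1, t2⟩, S, s1, s2⟩ := Pool.Agent.H.MP_188e7a.main
  refine ⟨X, Y, inferInstance, inferInstance, h1, h2, h3, h4, ⟨T, ?_, t2⟩, S, ?_, s2⟩
  · let := ptop X
    exact continuous_induced_rng.2 (continuous_pi t1)
  · let := ptop Y
    exact continuous_induced_rng.2 (continuous_pi s1)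

end Pool.Agent.Results.MP_188e7a_gt.NotSigma
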